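import Pool.Agent.Run7.h78.VB.Verb
import Pool.Agent.Y75.BF.Defs

/-!
# Groups in which no element of infinite order is conjugate to a proper power

Owner helper78.
-/

set_option autoImplicit false

namespace Pool.Agent.Run7.h78.NP

open Pool.Agent.Y75.BF (InfOrd NoPow)
open Pool.Agent.Run7.h78.VB

universe u v

/-- no element of infinite order is conjugate to a proper power -/
def NP (G : Type u) [Group G] : Prop := ∀ g : G, InfOrd g → NoPow g

theorem conj_iter {G : Type u} [Group G] {c g : G} {m : ℕ} (h : c * g * c⁻¹ = g ^ m) (k : ℕ) :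
    c ^ k * g * (c ^ k)⁻¹ = g ^ m ^ k := by
  induction k with
  | zero => simp
  | succ k ih =>
    calc c ^ (k + 1) * g * (c ^ (k + 1))⁻¹ = c ^ k * (c * g * c⁻¹) * (c ^ k)⁻¹ := by
          rw [pow_succ]; group
      _ = c ^ k * g ^ m * (c ^ k)⁻¹ := by rw [h]
      _ = (c ^ k * g * (c ^ k)⁻¹) ^ m := conj_pow.symm
      _ = g ^ m ^ (k + 1) := by rw [ih, ← pow_mul, pow_succ]

theorem root_iter {G : Type u} [Group G] {c g : G} {m : ℕ} (h : c * g * c⁻¹ = g ^ m) (k : ℕ) :
    ((c ^ k)⁻¹ * g * c ^ k) ^ m ^ k = g := by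
  have h1 := conj_iter h k
  have h2 : ((c ^ k)⁻¹ * g * c ^ k) ^ m ^ k = (c ^ k)⁻¹ * g ^ m ^ k * c ^ k := by
    have h3 : ((c ^ k)⁻¹ * g * ((c ^ k)⁻¹)⁻¹) ^ m ^ k = (c ^ k)⁻¹ * g ^ m ^ k * ((c ^ k)⁻¹)⁻¹ :=
      conj_pow
    rwa [inv_inv] at h3
  rw [h2, ← h1]
  group

theorem InfOrd.pow {G : Type u} [Group G] {g : G} (hg : InfOrd g) {j : ℕ} (hj : 0 < j) :
    InfOrd (g ^ j) := by
  intro n hn h
  rw [← pow_mul] at h
  exact hg _ (Nat.mul_pos hj hn) h

theorem not_infOrd {G : Type u} [Group G] {g : G} (hg : ¬ InfOrd g) : ∃ n, 0 < n ∧ g ^ n = 1 := by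
  unfold InfOrd at hg
  push Not at hg
  exact hg

theorem InfOrd.of_map {G : Type u} {H : Type v} [Group G] [Group H] (f : G →* H) {g : G}
    (h : InfOrd (f g)) : InfOrd g := by
  intro n hn h1
  apply h n hn
  rw [← map_pow, h1, map_one]

theorem NoPow.of_map {G : Type u} {H : Type v} [Group G] [Group H] (f : G →* H) {g : G}
    (h : NoPow (f g)) : NoPow g := by
  intro m hm hc
  apply h m hm
  rw [← map_pow]
  exact MonoidHom.map_isConj f hc

theorem conj_pow_pow {G : Type u} [Group G] {c g : G} {m : ℕ} (h : c * g * c⁻¹ = g ^ m) (j : ℕ) :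
    c * g ^ j * c⁻¹ = (g ^ j) ^ m := by
  rw [← conj_pow, h, ← pow_mul, ← pow_mul, mul_comm]

theorem NoPow.of_pow {G : Type u} [Group G] {g : G} (j : ℕ) (h : NoPow (g ^ j)) : NoPow g := by
  intro m hm hc
  apply h m hm
  obtain ⟨c, hc⟩ := isConj_iff.1 hc
  exact isConj_iff.2 ⟨c, conj_pow_pow hc j⟩

theorem np_of_injective {G : Type u} {H : Type v} [Group G] [Group H] (f : G →* H)
    (hf : Function.Injective f) (h : NP H) : NP G := by
  intro g hg
  refine NoPow.of_map f (h (f g) ?_)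
  intro n hn h1
  apply hg n hn
  apply hf
  rw [map_pow, h1, map_one]

/-- the property goes up along homomorphisms with central kernel -/
theorem np_of_central {G : Type u} {H : Type v} [Group G] [Group H] (f : G →* H)
    (hf : ∀ z, f z = 1 → ∀ x, x * z = z * x) (h : NP H) : NP G := by
  intro g hg
  by_cases h1 : InfOrd (f g)
  · exact NoPow.of_map f (h _ h1)
  · obtain ⟨n, hn, h2⟩ := not_infOrd h1
    rw [← map_pow] at h2
    refine NoPow.of_pow n fun m hm hc => ?_
    obtain ⟨c, hc⟩ := isConj_iff.1 hc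
    rw [hf _ h2 c, mul_inv_cancel_right] at hc
    have h3 : (g ^ n) ^ (m - 1) = 1 := by
      have h4 : (g ^ n) ^ (m - 1) * g ^ n = g ^ n := by
        rw [← pow_succ, Nat.sub_add_cancel (by omega)]
        exact hc.symm
      exact mul_eq_right.1 h4
    rw [← pow_mul] at h3
    exact hg _ (Nat.mul_pos hn (by omega)) h3

theorem np_of_torsion {G : Type u} [Group G] (h : ∀ g : G, ¬ InfOrd g) : NP G :=
  fun g hg => absurd hg (h g)

/-- the property holds if the elements of infinite order are detected -/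
theorem np_of_detect {G : Type u} [Group G]
    (h : ∀ g : G, InfOrd g → ∃ (H : Type v) (_ : Group H) (f : G →* H), NP H ∧ InfOrd (f g)) :
    NP G := by
  intro g hg
  obtain ⟨H, _, f, hH, h1⟩ := h g hg
  exact NoPow.of_map f (hH _ h1)

theorem np_of_subsingleton {G : Type u} [Group G] (h : ∀ g : G, g = 1) : NP G :=
  np_of_torsion fun g hg => hg 1 one_pos (by rw [h g, one_pow])

/-- nilpotent groups -/
theorem np_of_nilpotent (G : Type u) [Group G] [hG : Group.IsNilpotent G] : NP G := by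
  refine Group.nilpotent_center_quotient_ind (P := fun G _ _ => NP G) G ?_ ?_
  · intro G _ _
    exact np_of_subsingleton fun g => Subsingleton.elim _ _
  · intro G _ _ ih
    refine np_of_central (QuotientGroup.mk' (Subgroup.center G)) (fun z hz x => ?_) ih
    rw [QuotientGroup.mk'_apply, QuotientGroup.eq_one_iff] at hz
    exact Subgroup.mem_center_iff.1 hz x

section rf

variable (W : Set (FreeGroup ℕ))

/-- homomorphisms that agree on a finite set of generators agree on a given word -/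
theorem agree_free {X : Type} (t : FreeGroup X) : ∃ S : Set X, S.Finite ∧
    ∀ (H : Type) [Group H] (f g : FreeGroup X →* H),
      (∀ s ∈ S, f (FreeGroup.of s) = g (FreeGroup.of s)) → f t = g t := by
  induction t using FreeGroup.induction_on with
  | C1 => exact ⟨∅, Set.finite_empty, fun H _ f g _ => by rw [map_one, map_one]⟩
  | of y => exact ⟨{y}, Set.finite_singleton y, fun H _ f g h => h y rfl⟩
  | inv_of y ih =>
    obtain ⟨S, hS, h⟩ := ih
    exact ⟨S, hS, fun H _ f g hfg => by rw [map_inv, map_inv, h H f g hfg]⟩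
  | mul x y hx hy =>
    obtain ⟨S, hS, h⟩ := hx
    obtain ⟨S', hS', h'⟩ := hy
    exact ⟨S ∪ S', hS.union hS', fun H _ f g hfg => by
      rw [map_mul, map_mul, h H f g fun s hs => hfg s (Or.inl hs),
        h' H f g fun s hs => hfg s (Or.inr hs)]⟩

/-- a generator of the relatively free group -/
def rof {X : Type} (x : X) : RF W X := QuotientGroup.mk' _ (FreeGroup.of x)

theorem agree {X : Type} (t : RF W X) : ∃ S : Set X, S.Finite ∧
    ∀ (H : Type) [Group H] (f g : RF W X →* H), (∀ s ∈ S, f (rof W s) = g (rof W s)) →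
      f t = g t := by
  obtain ⟨t, rfl⟩ := QuotientGroup.mk'_surjective _ t
  obtain ⟨S, hS, h⟩ := agree_free t
  exact ⟨S, hS, fun H _ f g hfg => h H (f.comp (QuotientGroup.mk' _)) (g.comp (QuotientGroup.mk' _)) hfg⟩

theorem rf_ext {X H : Type} [Group H] {f g : RF W X →* H} (h : ∀ x, f (rof W x) = g (rof W x)) :
    f = g := by
  refine MonoidHom.ext fun t => ?_
  obtain ⟨S, _, hS⟩ := agree W t
  exact hS H f g fun s _ => h s

/-- extension of a map to a group that satisfies the laws -/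
theorem exists_lift {X H : Type} [Group H] (hH : verbal W H = ⊥) (a : X → H) :
    ∃ f : RF W X →* H, ∀ x, f (rof W x) = a x := by
  refine ⟨QuotientGroup.lift _ (FreeGroup.lift a) fun x hx => ?_, fun x => ?_⟩
  · have h1 := verbal_map W (FreeGroup.lift a) hx
    rwa [hH, Subgroup.mem_bot] at h1
  · show FreeGroup.lift a (FreeGroup.of x) = a x
    exact FreeGroup.lift_apply_of

theorem rfMap_rof {X Y : Type} (f : X → Y) (x : X) : rfMap W f (rof W x) = rof W (f x) := by
  show QuotientGroup.mk' _ (FreeGroup.map f (FreeGroup.of x)) = _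
  rw [FreeGroup.map.of]
  rfl

/-- from finite rank to arbitrary rank -/
theorem np_rf (hW : ∀ n : ℕ, NP (RF W (Fin n))) (X : Type) : NP (RF W X) := by
  classical
  intro y hy m hm hc
  obtain ⟨x, hx⟩ := isConj_iff.1 hc
  obtain ⟨S, hS, h1⟩ := agree W x
  obtain ⟨S', hS', h2⟩ := agree W y
  obtain ⟨T, hT⟩ : ∃ T : Set X, T = S ∪ S' := ⟨_, rfl⟩
  have hTf : T.Finite := by rw [hT]; exact hS.union hS'
  obtain ⟨r, hr⟩ := exists_lift W (verbal_rf W T) fun x : X =>
    if h : x ∈ T then rof W (⟨x, h⟩ : T) else 1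
  obtain ⟨ι, hι⟩ : ∃ ι : RF W T →* RF W X, ι = rfMap W (Subtype.val : T → X) := ⟨_, rfl⟩
  have h3 : ∀ s ∈ T, (ι.comp r) (rof W s) = (MonoidHom.id _) (rof W s) := by
    intro s hs
    rw [MonoidHom.comp_apply, hr, dif_pos hs, hι, rfMap_rof]
    rfl
  have h4 : ι (r y) = y := h2 _ (ι.comp r) (MonoidHom.id _) fun s hs => h3 s (by
    rw [hT]; exact Or.inr hs)
  have hfin : Finite T := hTf
  have := Fintype.ofFinite T
  have hN : NP (RF W T) := by
    refine np_of_injective (rfMap W (Fintype.equivFin T)) ?_ (hW (Fintype.card T))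
    intro a b hab
    have h5 := congrArg (rfMap W (Fintype.equivFin T).symm) hab
    rw [rfMap_comp, rfMap_comp, Equiv.symm_comp_self, rfMap_id, rfMap_id] at h5
    exact h5
  refine hN (r y) ?_ m hm (isConj_iff.2 ⟨r x, ?_⟩)
  · refine InfOrd.of_map ι ?_
    rw [h4]
    exact hy
  · rw [← map_inv, ← map_mul, ← map_mul, hx, map_pow]

/-- a power of a permutation that fixes some points of a finite set and moves the others away -/
theorem exists_good {X : Type} (π : Equiv.Perm X) (S : Set X) (hS : S.Finite) :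
    ∃ k : ℕ, 1 ≤ k ∧ ∀ s ∈ S, (π ^ k) s = s ∨ (π ^ k) s ∉ S := by
  classical
  have h1 : ∀ s : X, ∃ n : ℕ, 1 ≤ n ∧ ((∃ n : ℕ, 1 ≤ n ∧ (π ^ n) s = s) → (π ^ n) s = s) := by
    intro s
    by_cases h : ∃ n : ℕ, 1 ≤ n ∧ (π ^ n) s = s
    · obtain ⟨n, hn, h2⟩ := h
      exact ⟨n, hn, fun _ => h2⟩
    · exact ⟨1, le_rfl, fun h2 => absurd h2 h⟩
  choose n hn h1 using h1
  have h2 : ∀ s : X, (∃ n : ℕ, 1 ≤ n ∧ (π ^ n) s = s) ∨ ∀ᶠ k : ℕ in Filter.atTop, (π ^ k) s ∉ S := by
    intro s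
    by_cases h : ∃ n : ℕ, 1 ≤ n ∧ (π ^ n) s = s
    · exact Or.inl h
    · right
      have hinj : Function.Injective fun k : ℕ => (π ^ k) s := by
        intro i j hij
        by_contra hne
        apply h
        rcases lt_or_gt_of_ne hne with h3 | h3
        · refine ⟨j - i, by omega, ?_⟩
          have h4 : (π ^ i) ((π ^ (j - i)) s) = (π ^ i) s := by
            rw [← Equiv.Perm.mul_apply, ← pow_add, Nat.add_sub_cancel' h3.le]
            exact hij.symm
          exact (π ^ i).injective h4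
        · refine ⟨i - j, by omega, ?_⟩
          have h4 : (π ^ j) ((π ^ (i - j)) s) = (π ^ j) s := by
            rw [← Equiv.Perm.mul_apply, ← pow_add, Nat.add_sub_cancel' h3.le]
            exact hij
          exact (π ^ j).injective h4
      have h3 : {k : ℕ | (π ^ k) s ∈ S}.Finite := hS.preimage hinj.injOn
      have h4 := h3.eventually_cofinite_notMem
      rw [Nat.cofinite_eq_atTop] at h4
      exact h4
  have h3 : ∀ᶠ k : ℕ in Filter.atTop, ∀ s ∈ S, (∃ n : ℕ, 1 ≤ n ∧ (π ^ n) s = s) ∨ (π ^ k) s ∉ S := by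
    rw [Filter.eventually_all_finite hS]
    intro s _
    rcases h2 s with h | h
    · exact Filter.Eventually.of_forall fun _ => Or.inl h
    · exact h.mono fun _ hk => Or.inr hk
  obtain ⟨K, hK⟩ := Filter.eventually_atTop.1 h3
  obtain ⟨N, hN⟩ : ∃ N : ℕ, N = ∏ s ∈ hS.toFinset, n s := ⟨_, rfl⟩
  have hN1 : 1 ≤ N := by
    rw [hN]
    exact Nat.one_le_iff_ne_zero.2 (Finset.prod_ne_zero_iff.2 fun s _ => by
      have := hn s; omega)
  refine ⟨N * (K + 1), Nat.mul_pos hN1 (by omega), fun s hs => ?_⟩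
  rcases hK (N * (K + 1)) (by nlinarith) s hs with h | h
  · left
    have h4 := h1 s h
    have h5 : n s ∣ N * (K + 1) := by
      refine Dvd.dvd.mul_right ?_ _
      rw [hN]
      exact Finset.dvd_prod_of_mem n (hS.mem_toFinset.2 hs)
    obtain ⟨l, hl⟩ := h5
    rw [hl, pow_mul]
    exact Equiv.Perm.pow_apply_eq_self_of_apply_eq_self h4 l
  · exact Or.inr h

/-- **Elements of the relatively free group in the semidirect product with a permutation group.** -/
theorem semi_noPow (hW : ∀ n : ℕ, NP (RF W (Fin n))) {X Q : Type} [Group Q]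
    (ρ : Q →* Equiv.Perm X) (w : RF W X) (hw : InfOrd w)
    (y : RF W X ⋊[(rfPerm W X).comp ρ] Q) (m : ℕ) (hm : 2 ≤ m) :
    y * SemidirectProduct.inl w * y⁻¹ ≠ SemidirectProduct.inl w ^ m := by
  classical
  intro h
  obtain ⟨S, hS, hag⟩ := agree W w
  obtain ⟨k, hk, hgood⟩ := exists_good (ρ y.right) S hS
  have h1 := conj_iter h k
  obtain ⟨M, hM⟩ : ∃ M : ℕ, M = m ^ k := ⟨_, rfl⟩
  have hM2 : 2 ≤ M := by
    rw [hM]
    calc 2 ≤ m := hm
      _ = m ^ 1 := (pow_one m).symm
      _ ≤ m ^ k := Nat.pow_le_pow_right (by omega) hk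
  obtain ⟨z, hz⟩ : ∃ z, z = y ^ k := ⟨_, rfl⟩
  rw [← hM, ← hz, ← map_pow] at h1
  have hzr : ρ z.right = (ρ y.right) ^ k := by
    rw [hz, ← map_pow]
    congr 1
    exact map_pow (SemidirectProduct.rightHom (φ := (rfPerm W X).comp ρ)) y k
  rw [← hzr] at hgood
  obtain ⟨π, hπ⟩ : ∃ π : Equiv.Perm X, π = ρ z.right := ⟨_, rfl⟩
  rw [← hπ] at hgood
  have h2 : z.left * rfMap W π w * z.left⁻¹ = w ^ M := by
    have h3 := congrArg SemidirectProduct.left (eq_mul_of_mul_inv_eq h1)
    rw [SemidirectProduct.mul_left, SemidirectProduct.mul_left, SemidirectProduct.left_inl,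
      SemidirectProduct.left_inl, SemidirectProduct.right_inl, map_one, MulAut.one_apply] at h3
    rw [mul_inv_eq_iff_eq_mul, ← h3, hπ]
    rfl
  -- the retractions
  have hkill : ∀ T : Set X, ∃ f : RF W X →* RF W X, ∀ x, f (rof W x) = if x ∈ T then 1 else rof W x :=
    fun T => exists_lift W (verbal_rf W X) _
  obtain ⟨k1, hk1⟩ := hkill {s | s ∈ S ∧ π s ∉ S}
  obtain ⟨k2, hk2⟩ := hkill {t | ∃ s, (s ∈ S ∧ π s ∉ S) ∧ π s = t}
  have e1 : k2 w = w := by
    refine hag _ k2 (MonoidHom.id _) fun s hs => ?_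
    rw [hk2, if_neg]
    · rfl
    · rintro ⟨s', ⟨_, h4⟩, h5⟩
      rw [h5] at h4
      exact h4 hs
  have e2 : k2 (rfMap W π w) = k1 w := by
    refine hag _ (k2.comp (rfMap W π)) k1 fun s hs => ?_
    rw [MonoidHom.comp_apply, rfMap_rof, hk2, hk1]
    by_cases h4 : π s ∈ S
    · have h5 : π s = s := (hgood s hs).resolve_right fun h5 => h5 h4
      rw [if_neg, if_neg, h5]
      · rintro ⟨_, h6⟩
        exact h6 h4
      · rintro ⟨s', ⟨_, h6⟩, h7⟩
        rw [h7] at h6
        exact h6 h4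
    · rw [if_pos (show π s ∈ {t | ∃ s, (s ∈ S ∧ π s ∉ S) ∧ π s = t} from ⟨s, ⟨hs, h4⟩, rfl⟩),
        if_pos (show s ∈ {s | s ∈ S ∧ π s ∉ S} from ⟨hs, h4⟩)]
  have e3 : k1 (k1 w) = k1 w := by
    have h4 : k1.comp k1 = k1 := by
      refine rf_ext W fun x => ?_
      rw [MonoidHom.comp_apply, hk1]
      by_cases h5 : x ∈ {s | s ∈ S ∧ π s ∉ S}
      · rw [if_pos h5, map_one]
      · rw [if_neg h5, hk1, if_neg h5]
    exact DFunLike.congr_fun h4 w
  have e4 : k2 z.left * k1 w * (k2 z.left)⁻¹ = w ^ M := by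
    have h4 := congrArg k2 h2
    rwa [map_mul, map_mul, map_inv, e2, map_pow, e1] at h4
  have e5 : k1 (k2 z.left) * k1 w * (k1 (k2 z.left))⁻¹ = k1 w ^ M := by
    have h4 := congrArg k1 e4
    rwa [map_mul, map_mul, map_inv, e3, map_pow] at h4
  by_cases h6 : InfOrd (k1 w)
  · exact np_rf W hW X _ h6 M hM2 (isConj_iff.2 ⟨_, e5⟩)
  · obtain ⟨j, hj, h7⟩ := not_infOrd h6
    have h8 : (w ^ M) ^ j = 1 := by
      rw [← e4, conj_pow, h7, mul_one, mul_inv_cancel]
    rw [← pow_mul] at h8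
    exact hw _ (Nat.mul_pos (by omega) hj) h8

end rf

end Pool.Agent.Run7.h78.NP
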