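import Pool.Agent.Run7.h78.NP.Orb
import Pool.Agent.Run7.h78.NP.Semi

/-!
# Verbal quotients: conjugacy to proper powers

Owner helper78.
-/

set_option autoImplicit false

namespace Pool.Agent.Run7.h78.NP

open Pool.Agent.Y75.BF (InfOrd NoPow)
open Pool.Agent.Run7.h78.VB

variable (W : Set (FreeGroup ℕ))

/-- if the words vanish in `ℤ / p`, then also in the vector spaces -/
theorem verbal_vec (p : ℕ) (hp : verbal W (Multiplicative (ZMod p)) = ⊥) (X : Type) :
    verbal W (Multiplicative (X →₀ ZMod p)) = ⊥ := by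
  rw [eq_bot_iff]
  refine (Subgroup.closure_le _).2 ?_
  rintro _ ⟨w, hw, f, rfl⟩
  rw [SetLike.mem_coe, Subgroup.mem_bot]
  refine Multiplicative.toAdd.injective (Finsupp.ext fun x => ?_)
  have h1 : (AddMonoidHom.toMultiplicative (Finsupp.applyAddHom (M := ZMod p) x)) (f w) ∈
      verbal W (Multiplicative (ZMod p)) :=
    Subgroup.subset_closure ⟨w, hw, (AddMonoidHom.toMultiplicative (Finsupp.applyAddHom x)).comp f,
      rfl⟩
  rw [hp, Subgroup.mem_bot] at h1
  exact congrArg Multiplicative.toAdd h1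

/-- a nontrivial group in the variety gives a prime -/
theorem exists_prime (T : Type) [Group T] [Nontrivial T] (hT : verbal W T = ⊥) :
    ∃ p : ℕ, p.Prime ∧ verbal W (Multiplicative (ZMod p)) = ⊥ := by
  obtain ⟨t, ht⟩ := exists_ne (1 : T)
  -- a surjective or injective homomorphism
  by_cases h0 : InfOrd t
  · refine ⟨2, Nat.prime_two, ?_⟩
    rw [eq_bot_iff]
    refine (Subgroup.closure_le _).2 ?_
    rintro _ ⟨w, hw, f, rfl⟩
    rw [SetLike.mem_coe, Subgroup.mem_bot]
    -- lift to the integers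
    obtain ⟨g, hg⟩ : ∃ g : FreeGroup ℕ →* Multiplicative ℤ, ∀ n,
        g (FreeGroup.of n) = Multiplicative.ofAdd ((Multiplicative.toAdd (f (FreeGroup.of n))).val : ℤ) :=
      ⟨FreeGroup.lift _, fun n => FreeGroup.lift_apply_of⟩
    have h1 : (AddMonoidHom.toMultiplicative (Int.castAddHom (ZMod 2))).comp g = f := by
      apply FreeGroup.ext_hom
      intro n
      rw [MonoidHom.comp_apply, hg]
      refine Multiplicative.toAdd.injective ?_
      show (((Multiplicative.toAdd (f (FreeGroup.of n))).val : ℤ) : ZMod 2) = _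
      rw [Int.cast_natCast, ZMod.natCast_val, ZMod.cast_id]
    have h2 : (zpowersHom T t) (g w) = 1 := by
      have h3 : (zpowersHom T t) (g w) ∈ verbal W T :=
        Subgroup.subset_closure ⟨w, hw, (zpowersHom T t).comp g, rfl⟩
      rwa [hT, Subgroup.mem_bot] at h3
    rw [zpowersHom_apply] at h2
    have h3 : Multiplicative.toAdd (g w) = 0 := by
      by_contra h4
      rcases Int.natAbs_eq (Multiplicative.toAdd (g w)) with h5 | h5
      · rw [h5, zpow_natCast] at h2
        exact h0 _ (Int.natAbs_pos.2 h4) h2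
      · rw [h5, zpow_neg, zpow_natCast, inv_eq_one] at h2
        exact h0 _ (Int.natAbs_pos.2 h4) h2
    rw [← h1, MonoidHom.comp_apply]
    refine Multiplicative.toAdd.injective ?_
    show ((Multiplicative.toAdd (g w) : ℤ) : ZMod 2) = 0
    rw [h3, Int.cast_zero]
  · obtain ⟨n, hn, h1⟩ := not_infOrd h0
    have hfin : IsOfFinOrder t := isOfFinOrder_iff_pow_eq_one.2 ⟨n, hn, h1⟩
    have hne : orderOf t ≠ 1 := fun h => ht (orderOf_eq_one_iff.1 h)
    obtain ⟨p, hp, hpd⟩ := Nat.exists_prime_and_dvd hne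
    refine ⟨p, hp, ?_⟩
    obtain ⟨k, hk⟩ := hpd
    have hs : orderOf (t ^ k) = p := by
      have hpos := hfin.orderOf_pos
      have hk0 : k ≠ 0 := by
        rintro rfl
        rw [hk, mul_zero] at hpos
        exact lt_irrefl _ hpos
      rw [orderOf_pow_of_dvd hk0 ⟨p, by rw [hk, mul_comm]⟩, hk, Nat.mul_div_cancel _ (Nat.pos_of_ne_zero hk0)]
    rw [eq_bot_iff]
    refine (Subgroup.closure_le _).2 ?_
    rintro _ ⟨w, hw, f, rfl⟩
    rw [SetLike.mem_coe, Subgroup.mem_bot]
    obtain ⟨g, hg⟩ : ∃ g : FreeGroup ℕ →* Multiplicative ℤ, ∀ n,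
        g (FreeGroup.of n) = Multiplicative.ofAdd ((Multiplicative.toAdd (f (FreeGroup.of n))).val : ℤ) :=
      ⟨FreeGroup.lift _, fun n => FreeGroup.lift_apply_of⟩
    have : NeZero p := ⟨hp.ne_zero⟩
    have h1 : (AddMonoidHom.toMultiplicative (Int.castAddHom (ZMod p))).comp g = f := by
      apply FreeGroup.ext_hom
      intro n
      rw [MonoidHom.comp_apply, hg]
      refine Multiplicative.toAdd.injective ?_
      show (((Multiplicative.toAdd (f (FreeGroup.of n))).val : ℤ) : ZMod p) = _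
      rw [Int.cast_natCast, ZMod.natCast_val, ZMod.cast_id]
    have h2 : (zpowersHom T (t ^ k)) (g w) = 1 := by
      have h3 : (zpowersHom T (t ^ k)) (g w) ∈ verbal W T :=
        Subgroup.subset_closure ⟨w, hw, (zpowersHom T (t ^ k)).comp g, rfl⟩
      rwa [hT, Subgroup.mem_bot] at h3
    rw [zpowersHom_apply, ← orderOf_dvd_iff_zpow_eq_one, hs] at h2
    rw [← h1, MonoidHom.comp_apply]
    refine Multiplicative.toAdd.injective ?_
    show ((Multiplicative.toAdd (g w) : ℤ) : ZMod p) = 0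
    exact (ZMod.intCast_zmod_eq_zero_iff_dvd _ _).2 h2

/-- **The abstract theorem.** -/
theorem np_abs (hW : ∀ n : ℕ, NP (RF W (Fin n))) (p : ℕ)
    (hp : verbal W (Multiplicative (ZMod p)) = ⊥) {X Q G : Type} [Group Q] [Group G]
    (ρ : Q →* Equiv.Perm X) (Θ : G →* RF W X ⋊[(rfPerm W X).comp ρ] Q)
    (hΘ : Function.Injective Θ)
    (h : ∀ g : G, InfOrd (Θ g).right → NoPow (Θ g).right ∨
      ((∀ n : ℤ, n ≠ 0 → ∀ b, ((ρ (Θ g).right) ^ n) b ≠ b) ∧
        ∃ (c : X → ZMod p) (f : RF W X →* Multiplicative (ZMod p)),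
          (∀ b, c (ρ (Θ g).right b) = c b) ∧ (∀ b, f (rof W b) = Multiplicative.ofAdd (c b)) ∧
          f (Θ g).left ≠ 1)) : NP G := by
  classical
  intro g hg m hm hcj
  obtain ⟨y, hy⟩ := isConj_iff.1 hcj
  obtain ⟨x, hx⟩ : ∃ x, x = Θ g := ⟨_, rfl⟩
  have hxy : Θ y * x * (Θ y)⁻¹ = x ^ m := by
    rw [hx, ← map_inv, ← map_mul, ← map_mul, hy, map_pow]
  have hxi : InfOrd x := by
    intro n hn h1
    apply hg n hn
    apply hΘ
    rw [map_pow, ← hx, h1, map_one]
  have hrp : ∀ (z : RF W X ⋊[(rfPerm W X).comp ρ] Q) (k : ℕ), (z ^ k).right = z.right ^ k :=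
    fun z k => map_pow (SemidirectProduct.rightHom (φ := (rfPerm W X).comp ρ)) z k
  by_cases hq : InfOrd x.right
  swap
  · -- finite order modulo the normal subgroup
    obtain ⟨j, hj, h1⟩ := not_infOrd hq
    have h2 : x ^ j = SemidirectProduct.inl (x ^ j).left := by
      refine SemidirectProduct.ext rfl ?_
      rw [hrp, h1]
      rfl
    have h3 := conj_pow_pow hxy j
    rw [h2] at h3
    refine semi_noPow W hW ρ (x ^ j).left ?_ (Θ y) m hm h3
    have h4 : InfOrd (x ^ j) := InfOrd.pow hxi hj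
    rw [h2] at h4
    exact InfOrd.of_map SemidirectProduct.inl h4
  rcases h g (by rw [← hx]; exact hq) with h1 | ⟨hfree, c, f, hc, hf, hne⟩
  · rw [← hx] at h1
    refine h1 m hm (isConj_iff.2 ⟨(Θ y).right, ?_⟩)
    have h2 := congrArg (SemidirectProduct.rightHom (φ := (rfPerm W X).comp ρ)) hxy
    rw [map_mul, map_mul, map_inv, map_pow] at h2
    exact h2
  rw [← hx] at hfree hc hne
  -- the abelianized cocycle
  obtain ⟨Λ, hΛ⟩ := exists_lift W (verbal_vec W p hp X) fun b : X =>
    Multiplicative.ofAdd (Finsupp.single b (1 : ZMod p))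
  have hΛπ : ∀ (π : Equiv.Perm X) (w : RF W X), Multiplicative.toAdd (Λ (rfMap W π w)) =
      Finsupp.mapDomain π (Multiplicative.toAdd (Λ w)) := by
    intro π w
    have h1 : Λ.comp (rfMap W π) =
        (AddMonoidHom.toMultiplicative (Finsupp.mapDomain.addMonoidHom (M := ZMod p) π)).comp Λ := by
      refine rf_ext W fun b => ?_
      rw [MonoidHom.comp_apply, MonoidHom.comp_apply, rfMap_rof, hΛ, hΛ]
      refine Multiplicative.toAdd.injective ?_
      exact Finsupp.mapDomain_single.symm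
    exact congrArg Multiplicative.toAdd (DFunLike.congr_fun h1 w)
  have hfΛ : ∀ w : RF W X, Multiplicative.toAdd (f w) =
      (Multiplicative.toAdd (Λ w)).sum fun b a => a * c b := by
    intro w
    obtain ⟨l, hl⟩ : ∃ l : (X →₀ ZMod p) →+ ZMod p, ∀ v, l v = v.sum fun b a => a * c b := by
      refine ⟨Finsupp.liftAddHom fun b => AddMonoidHom.mulRight (c b), fun v => ?_⟩
      rfl
    have h1 : f = (AddMonoidHom.toMultiplicative l).comp Λ := by
      refine rf_ext W fun b => ?_
      rw [MonoidHom.comp_apply, hΛ, hf]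
      refine Multiplicative.toAdd.injective ?_
      show c b = l (Finsupp.single b 1)
      rw [hl, Finsupp.sum_single_index (zero_mul _), one_mul]
    rw [← hl]
    exact congrArg Multiplicative.toAdd (DFunLike.congr_fun h1 w)
  obtain ⟨v, hv⟩ : ∃ v : (RF W X ⋊[(rfPerm W X).comp ρ] Q) → (X →₀ ZMod p),
      ∀ z, v z = Multiplicative.toAdd (Λ z.left) := ⟨_, fun _ => rfl⟩
  have hvm : ∀ z z', v (z * z') = v z + Finsupp.mapDomain (ρ z.right) (v z') := by
    intro z z'
    rw [hv, hv, hv, SemidirectProduct.mul_left, map_mul, toAdd_mul, ← hΛπ]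
    rfl
  have hvp : ∀ (z : RF W X ⋊[(rfPerm W X).comp ρ] Q) (M : ℕ), v (z ^ M) =
      ∑ j ∈ Finset.range M, Finsupp.mapDomain (fun b => ((ρ z.right) ^ j) b) (v z) := by
    intro z M
    induction M with
    | zero =>
      rw [pow_zero, Finset.sum_range_zero, hv]
      show Multiplicative.toAdd (Λ 1) = 0
      rw [map_one]
      rfl
    | succ M ih =>
      rw [pow_succ, hvm, ih, Finset.sum_range_succ, hrp, map_pow]
  have hbound : ∀ k : ℕ, m ^ k ≤ (v x).support.card := by
    intro k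
    have h1 := root_iter hxy k
    obtain ⟨z, hz⟩ : ∃ z, z = ((Θ y) ^ k)⁻¹ * x * (Θ y) ^ k := ⟨_, rfl⟩
    rw [← hz] at h1
    refine root_bound (ρ x.right) (ρ z.right) (m ^ k) ?_ hfree (v x) (v z) ?_ c hc ?_
    · rw [← map_pow, ← hrp, h1]
    · rw [← hvp, h1]
    · intro h0
      apply hne
      refine Multiplicative.toAdd.injective ?_
      rw [hfΛ, ← hv]
      exact h0
  have h1 := hbound (v x).support.card
  exact absurd h1 (not_le.2 (Nat.lt_pow_self (by omega)))

end Pool.Agent.Run7.h78.NP
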