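import Pool.Agent.Run7.h78.NP.Words

/-!
# The class of pairs, detection

Owner helper78.
-/

set_option autoImplicit false

namespace Pool.Agent.Run7.h78.NP

open Pool.Agent.Y75.BF (InfOrd NoPow)
open Pool.Agent.Run7.h78.VB

universe u w

/-- `R` is any normal subgroup of the free group `G`, or `G` acts on a tree by automorphisms such that
`R` acts freely and without inversions and the elements which fix a vertex and have infinite order
modulo `R` are not conjugate to proper powers modulo `R`. -/
def VPair (G : Type) [Group G] (R : Subgroup G) [R.Normal] : Prop :=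
  (∃ X : Type, Nonempty (G ≃* FreeGroup X)) ∨
  ∃ (V : Type) (_ : MulAction G V) (T : SimpleGraph V), T.IsTree ∧
    (∀ (g : G) (u v : V), T.Adj u v → T.Adj (g • u) (g • v)) ∧
    (∀ r ∈ R, ∀ v : V, r • v = v → r = 1) ∧
    (∀ r ∈ R, ∀ u v : V, T.Adj u v → r • u = v → r • v ≠ u) ∧
    ∀ (v : V) (x : G), x • v = v → InfOrd (QuotientGroup.mk x : G ⧸ R) →
      NoPow (QuotientGroup.mk x : G ⧸ R)

theorem vmap (W : Set (FreeGroup ℕ)) {G G' : Type} [Group G] [Group G'] (R : Subgroup G)
    (R' : Subgroup G') (φ : G →* G') (hφ : ∀ r ∈ R, φ r ∈ R') {x : G}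
    (hx : x ∈ (verbal W R).map R.subtype) : φ x ∈ (verbal W R').map R'.subtype := by
  obtain ⟨r, hr, rfl⟩ := hx
  exact ⟨((φ.comp R.subtype).codRestrict R' fun r => hφ r r.2) r, verbal_map W _ hr, rfl⟩

theorem np_rel (W : Set (FreeGroup ℕ)) (hW : Adm W) (G : Type) [Group G] (R : Subgroup G) [R.Normal]
    (h : VPair G R) : NP (G ⧸ (verbal W R).map R.subtype) := by
  obtain ⟨⟨P, _, _, hP⟩, hn⟩ := hW
  rcases h with ⟨X, ⟨e⟩⟩ | ⟨V, _, T, hT, hact, hfree, hinv, hst⟩
  · have hR' : (R.map e.toMonoidHom).Normal := Subgroup.Normal.map inferInstance _ e.surjective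
    have h1 := np_free W (R.map e.toMonoidHom) hn P hP
    have hle : (verbal W R).map R.subtype ≤ ((verbal W (R.map e.toMonoidHom)).map
        (R.map e.toMonoidHom).subtype).comap e.toMonoidHom := fun x hx => vmap W R
      (R.map e.toMonoidHom) e.toMonoidHom (fun r hr => Subgroup.mem_map_of_mem e.toMonoidHom hr) hx
    refine np_of_injective (QuotientGroup.map _ _ e.toMonoidHom hle) ?_ h1
    rw [injective_iff_map_eq_one]
    intro a ha
    obtain ⟨a, rfl⟩ := QuotientGroup.mk'_surjective _ a
    rw [QuotientGroup.mk'_apply, QuotientGroup.map_mk, QuotientGroup.eq_one_iff] at ha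
    rw [QuotientGroup.mk'_apply, QuotientGroup.eq_one_iff]
    have h2 := vmap W (R.map e.toMonoidHom) R e.symm.toMonoidHom (fun r hr => by
      obtain ⟨s, hs, rfl⟩ := hr
      have h3 : e.symm.toMonoidHom (e.toMonoidHom s) = s := e.symm_apply_apply s
      rw [h3]
      exact hs) ha
    have h3 : e.symm.toMonoidHom (e.toMonoidHom a) = a := e.symm_apply_apply a
    rwa [h3] at h2
  · exact np_tree W hn P hP hT hact R hfree hinv hst

/-- The element `h` is *detected*: every finitely generated subgroup `H0` containing it has a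
homomorphism `s` to a group `G / [W(R), G, ..., G]`, where `W` is admissible and `R` is as in `VPair`,
such that `s h` has infinite order. -/
def DetV (H : Type w) [Group H] (h : H) : Prop :=
  ∀ (H0 : Subgroup H) (_ : H0.FG) (hh : h ∈ H0),
    ∃ (W : Set (FreeGroup ℕ)) (G : Type) (_ : Group G) (R : Subgroup G) (_ : R.Normal) (k : ℕ)
      (s : H0 →* G ⧸ itc ((verbal W R).map R.subtype) k), Adm W ∧ VPair G R ∧ InfOrd (s ⟨h, hh⟩)

theorem DetV.det {H : Type w} [Group H] {h : H} (hd : DetV H h) : Pool.Agent.V11187.BT.Det H h := by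
  intro H0 hH0 hh
  obtain ⟨W, G, _, R, _, k, s, hW, hr, hs⟩ := hd H0 hH0 hh
  exact ⟨_, inferInstance, s, np_itc _ (np_rel W hW G R hr) k, hs⟩

theorem itc_congr {G : Type u} [Group G] {N N' : Subgroup G} (h : N = N') (k : ℕ) :
    itc N k = itc N' k := by rw [h]

theorem bass_rel (A : Type u) [CommRing A] [IsDomain A] (W : Set (FreeGroup ℕ)) (hW : Adm W)
    (G : Type) [Group G] (R : Subgroup G) [R.Normal] (h : VPair G R) (k : ℕ) (M : Subgroup G) [M.Normal]
    (hM : M = itc ((verbal W R).map R.subtype) k) :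
    Pool.Agent.H26R2.Bass.BassFor A (G ⧸ M) := by
  subst hM
  exact Pool.Agent.V11187.BT.bass_detect A _ fun x hx => DetV.det fun H0 _ hh =>
    ⟨W, G, inferInstance, R, inferInstance, k, H0.subtype, hW, h, hx⟩

end Pool.Agent.Run7.h78.NP
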