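import Pool.Agent.Run7.h78.NP.Abs
import Pool.Agent.Run7.h78.VB.Free

/-!
# Verbal quotients of free groups: conjugacy to proper powers

Owner helper78.
-/

set_option autoImplicit false

namespace Pool.Agent.Run7.h78.NP

open Pool.Agent.Y75.BF (InfOrd NoPow)
open Pool.Agent.Run7.h78.VB

variable (W : Set (FreeGroup ℕ))

/-- the action of `F ⧸ R` on the free group on `(F ⧸ R) × X` -/
def lact (Q X : Type) [Group Q] : Q →* MulAut (FreeGroup (Q × X)) where
  toFun q := FreeGroup.freeGroupCongr (lperm Q X q)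
  map_one' := by
    apply MulEquiv.ext
    intro w
    show FreeGroup.map (lperm Q X 1) w = w
    rw [map_one]
    exact FreeGroup.map.id w
  map_mul' a b := by
    apply MulEquiv.ext
    intro w
    show FreeGroup.map (lperm Q X (a * b)) w = FreeGroup.map _ (FreeGroup.map _ w)
    rw [FreeGroup.map.comp, map_mul]
    rfl

section

variable {X : Type} (R : Subgroup (FreeGroup X)) [R.Normal]

/-- the Magnus homomorphism -/
def mag : FreeGroup X →* FreeGroup ((FreeGroup X ⧸ R) × X) ⋊[lact (FreeGroup X ⧸ R) X] (FreeGroup X ⧸ R) :=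
  FreeGroup.lift fun x => ⟨FreeGroup.of (1, x), QuotientGroup.mk' R (FreeGroup.of x)⟩

theorem mag_of (x : X) : mag R (FreeGroup.of x) =
    ⟨FreeGroup.of (1, x), QuotientGroup.mk' R (FreeGroup.of x)⟩ := FreeGroup.lift_apply_of

theorem mag_right (w : FreeGroup X) : (mag R w).right = QuotientGroup.mk' R w := by
  have h1 : (SemidirectProduct.rightHom.comp (mag R)) = QuotientGroup.mk' R := by
    apply FreeGroup.ext_hom
    intro x
    rw [MonoidHom.comp_apply, mag_of]
    rfl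
  exact DFunLike.congr_fun h1 w

/-- a telescoping formula -/
theorem mag_key {H : Type} [Group H] (s : FreeGroup X ⧸ R → H) (χ : FreeGroup X →* H)
    (ρ : FreeGroup ((FreeGroup X ⧸ R) × X) →* H)
    (hρ : ∀ e, ρ (FreeGroup.of e) =
      s e.1 * χ (FreeGroup.of e.2) * (s (e.1 * QuotientGroup.mk' R (FreeGroup.of e.2)))⁻¹)
    (w : FreeGroup X) : ∀ q : FreeGroup X ⧸ R, ρ (lact (FreeGroup X ⧸ R) X q (mag R w).left) =
      s q * χ w * (s (q * QuotientGroup.mk' R w))⁻¹ := by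
  induction w using FreeGroup.induction_on with
  | C1 =>
    intro q
    rw [map_one]
    show (ρ (lact _ X q 1)) = _
    rw [map_one, map_one, map_one, map_one, mul_one, mul_one, mul_inv_cancel]
  | of x =>
    intro q
    rw [mag_of]
    show (ρ (FreeGroup.map (lperm _ X q) (FreeGroup.of (1, x)))) = _
    rw [FreeGroup.map.of, hρ]
    show s (q * 1) * χ (FreeGroup.of x) * (s (q * 1 * QuotientGroup.mk' R (FreeGroup.of x)))⁻¹ = _
    rw [mul_one]
  | inv_of x ih =>
    intro q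
    have h1 : (mag R (FreeGroup.of x)⁻¹).left =
        lact _ X (QuotientGroup.mk' R (FreeGroup.of x))⁻¹ (mag R (FreeGroup.of x)).left⁻¹ := by
      rw [map_inv, SemidirectProduct.inv_left, mag_right]
    have h2 := ih (q * (QuotientGroup.mk' R (FreeGroup.of x))⁻¹)
    rw [h1, map_inv (lact _ X (QuotientGroup.mk' R (FreeGroup.of x))⁻¹), map_inv (lact _ X q),
      map_inv ρ]
    have h3 : lact _ X q (lact _ X (QuotientGroup.mk' R (FreeGroup.of x))⁻¹
        (mag R (FreeGroup.of x)).left) =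
        lact _ X (q * (QuotientGroup.mk' R (FreeGroup.of x))⁻¹) (mag R (FreeGroup.of x)).left := by
      rw [map_mul]
      rfl
    rw [h3, h2, inv_mul_cancel_right, map_inv, map_inv]
    group
  | mul a b iha ihb =>
    intro q
    have h1 : (mag R (a * b)).left = (mag R a).left * lact _ X (QuotientGroup.mk' R a) (mag R b).left := by
      rw [map_mul, SemidirectProduct.mul_left, mag_right]
    have h3 : lact _ X q (lact _ X (QuotientGroup.mk' R a) (mag R b).left) =
        lact _ X (q * QuotientGroup.mk' R a) (mag R b).left := by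
      rw [map_mul]
      rfl
    rw [h1, map_mul (lact _ X q), map_mul ρ, h3, iha, ihb, map_mul, map_mul]
    group

/-- **The embedding (Shmel'kin).** -/
theorem free_emb : ∃ Θ : FreeGroup X ⧸ (verbal W R).map R.subtype →*
      RF W ((FreeGroup X ⧸ R) × X) ⋊[(rfPerm W _).comp (lperm (FreeGroup X ⧸ R) X)] (FreeGroup X ⧸ R),
    Function.Injective Θ ∧ ∀ w : FreeGroup X, Θ (QuotientGroup.mk' _ w) =
      ⟨QuotientGroup.mk' _ (mag R w).left, QuotientGroup.mk' R w⟩ := by
  classical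
  -- the section
  obtain ⟨t, ht, ht1⟩ : ∃ t : FreeGroup X ⧸ R → FreeGroup X, (∀ q, QuotientGroup.mk' R (t q) = q) ∧
      t 1 = 1 := by
    choose t ht using QuotientGroup.mk'_surjective R
    refine ⟨fun q => if q = 1 then 1 else t q, fun q => ?_, if_pos rfl⟩
    by_cases h : q = 1
    · simp only [h, if_true, map_one]
    · simp only [h, if_false]
      exact ht q
  have hmem : ∀ (q : FreeGroup X ⧸ R) (w : FreeGroup X),
      t q * w * (t (q * QuotientGroup.mk' R w))⁻¹ ∈ R := by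
    intro q w
    rw [← QuotientGroup.eq_one_iff, ← QuotientGroup.mk'_apply, map_mul, map_mul, map_inv, ht, ht]
    group
  obtain ⟨ρ, hρ⟩ : ∃ ρ : FreeGroup ((FreeGroup X ⧸ R) × X) →* R, ∀ e, ρ (FreeGroup.of e) =
      ⟨t e.1 * FreeGroup.of e.2 * (t (e.1 * QuotientGroup.mk' R (FreeGroup.of e.2)))⁻¹, hmem _ _⟩ :=
    ⟨FreeGroup.lift _, fun e => FreeGroup.lift_apply_of⟩
  have key := fun w => mag_key R t (MonoidHom.id _) (R.subtype.comp ρ) (fun e => by
    rw [MonoidHom.comp_apply, hρ]; rfl) w 1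
  obtain ⟨κ, hκ⟩ : ∃ κ : FreeGroup ((FreeGroup X ⧸ R) × X) ⋊[lact (FreeGroup X ⧸ R) X] (FreeGroup X ⧸ R) →*
      RF W ((FreeGroup X ⧸ R) × X) ⋊[(rfPerm W _).comp (lperm _ X)] (FreeGroup X ⧸ R),
      ∀ z, κ z = ⟨QuotientGroup.mk' _ z.left, z.right⟩ := by
    refine ⟨SemidirectProduct.map (QuotientGroup.mk' _) (MonoidHom.id _) ?_, fun z => rfl⟩
    intro q
    ext w
    rfl
  obtain ⟨Θ, hΘ⟩ : ∃ Θ : FreeGroup X →*
      RF W ((FreeGroup X ⧸ R) × X) ⋊[(rfPerm W _).comp (lperm (FreeGroup X ⧸ R) X)] (FreeGroup X ⧸ R),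
      ∀ w, Θ w = ⟨QuotientGroup.mk' _ (mag R w).left, QuotientGroup.mk' R w⟩ := by
    refine ⟨κ.comp (mag R), fun w => ?_⟩
    rw [MonoidHom.comp_apply, hκ, mag_right]
  have h1 : ∀ g ∈ (verbal W R).map R.subtype, Θ g = 1 := by
    rintro _ ⟨r, hr, rfl⟩
    have hr1 : ∀ r : R, (Θ r).right = 1 := fun r => by
      rw [hΘ]
      exact (QuotientGroup.eq_one_iff _).2 r.2
    obtain ⟨β, hβ⟩ : ∃ β : R →* RF W ((FreeGroup X ⧸ R) × X), ∀ r, β r = (Θ r).left := by
      refine ⟨MonoidHom.mk' (fun r => (Θ r).left) fun a b => ?_, fun _ => rfl⟩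
      show (Θ ((a : FreeGroup X) * b)).left = _
      rw [map_mul, SemidirectProduct.mul_left, hr1, map_one]
      rfl
    have h2 := verbal_map W β hr
    rw [verbal_rf, Subgroup.mem_bot, hβ] at h2
    exact SemidirectProduct.ext h2 (hr1 r)
  refine ⟨QuotientGroup.lift _ Θ h1, ?_, fun w => hΘ w⟩
  rw [injective_iff_map_eq_one]
  intro g hg
  obtain ⟨g, rfl⟩ := QuotientGroup.mk'_surjective _ g
  have h2 : Θ g = 1 := hg
  rw [QuotientGroup.mk'_apply, QuotientGroup.eq_one_iff]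
  rw [hΘ] at h2
  have h3 : QuotientGroup.mk' R g = 1 := congrArg SemidirectProduct.right h2
  have hgR : g ∈ R := (QuotientGroup.eq_one_iff g).1 h3
  have h4 : (mag R g).left ∈ verbal W (FreeGroup ((FreeGroup X ⧸ R) × X)) :=
    (QuotientGroup.eq_one_iff _).1 (congrArg SemidirectProduct.left h2)
  have h5 := verbal_map W ρ h4
  have h6 : ρ (mag R g).left = ⟨g, hgR⟩ := by
    apply Subtype.ext
    have h7 := key g
    rw [map_one, one_mul, h3, ht1, one_mul, inv_one, mul_one] at h7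
    exact h7
  rw [h6] at h5
  exact ⟨⟨g, hgR⟩, h5, rfl⟩

/-- **Free groups.** -/
theorem np_free (hW : ∀ n : ℕ, NP (RF W (Fin n))) (P : Type) [Group P] [Nontrivial P]
    (hP : verbal W P = ⊥) : NP (FreeGroup X ⧸ (verbal W R).map R.subtype) := by
  classical
  obtain ⟨p, hpp, hp⟩ := exists_prime W P hP
  have := Fact.mk hpp
  obtain ⟨Θ, hΘ, hΘw⟩ := free_emb W R
  refine np_abs W hW p hp (lperm (FreeGroup X ⧸ R) X) Θ hΘ fun g hg => ?_
  obtain ⟨g, rfl⟩ := QuotientGroup.mk'_surjective _ g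
  rw [hΘw] at hg ⊢
  right
  obtain ⟨q, hq⟩ : ∃ q, q = QuotientGroup.mk' R g := ⟨_, rfl⟩
  have hg' : InfOrd q := by rw [hq]; exact hg
  have hz : ∀ n : ℤ, n ≠ 0 → q ^ n ≠ 1 := by
    intro n hn h1
    rcases Int.natAbs_eq n with h5 | h5
    · rw [h5, zpow_natCast] at h1
      exact hg' _ (Int.natAbs_pos.2 hn) h1
    · rw [h5, zpow_neg, zpow_natCast, inv_eq_one] at h1
      exact hg' _ (Int.natAbs_pos.2 hn) h1
  show (∀ n : ℤ, n ≠ 0 → ∀ b, ((lperm (FreeGroup X ⧸ R) X (QuotientGroup.mk' R g)) ^ n) b ≠ b) ∧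
    ∃ (c : (FreeGroup X ⧸ R) × X → ZMod p) (f : RF W ((FreeGroup X ⧸ R) × X) →* Multiplicative (ZMod p)),
      (∀ b, c (lperm (FreeGroup X ⧸ R) X (QuotientGroup.mk' R g) b) = c b) ∧
        (∀ b, f (rof W b) = Multiplicative.ofAdd (c b)) ∧
          f (QuotientGroup.mk' _ (mag R g).left) ≠ 1
  rw [← hq]
  refine ⟨?_, ?_⟩
  · intro n hn b hb
    rw [← map_zpow] at hb
    have h1 : q ^ n * b.1 = b.1 := congrArg Prod.fst hb
    exact hz n hn (mul_eq_right.1 h1)
  obtain ⟨θ, hθ⟩ := exists_height (Equiv.mulLeft q) fun n hn y hy => by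
    have h1 : q ^ n * y = y := by
      have h2 : (Equiv.mulLeft q) ^ n = Equiv.mulLeft (q ^ n) := by
        rw [Equiv.zpow_mulLeft]
      rw [h2] at hy
      exact hy
    exact hz n hn (mul_eq_right.1 h1)
  obtain ⟨c, hc⟩ : ∃ c : (FreeGroup X ⧸ R) × X → ZMod p, ∀ e,
      c e = -((θ e.1 : ℤ) : ZMod p) + ((θ (e.1 * QuotientGroup.mk' R (FreeGroup.of e.2)) : ℤ) : ZMod p) :=
    ⟨_, fun _ => rfl⟩
  obtain ⟨f, hf⟩ := exists_lift W hp fun b => Multiplicative.ofAdd (c b)
  refine ⟨c, f, ?_, hf, ?_⟩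
  · rintro ⟨a, x⟩
    show c (q * a, x) = c (a, x)
    rw [hc, hc]
    show -((θ (q * a) : ℤ) : ZMod p) + ((θ (q * a * QuotientGroup.mk' R (FreeGroup.of x)) : ℤ) : ZMod p) =
      -((θ a : ℤ) : ZMod p) + ((θ (a * QuotientGroup.mk' R (FreeGroup.of x)) : ℤ) : ZMod p)
    have h1 : ∀ a, θ (q * a) = θ a + 1 := hθ
    rw [mul_assoc, h1, h1, Int.cast_add, Int.cast_add]
    ring
  · have h1 := mag_key R (fun a => Multiplicative.ofAdd (-((θ a : ℤ) : ZMod p))) 1
      (f.comp (QuotientGroup.mk' _)) (fun e => ?_) g 1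
    swap
    · rw [MonoidHom.comp_apply]
      have h2 : f (QuotientGroup.mk' _ (FreeGroup.of e)) = Multiplicative.ofAdd (c e) := hf e
      rw [h2, hc]
      refine Multiplicative.toAdd.injective ?_
      show -((θ e.1 : ℤ) : ZMod p) + ((θ (e.1 * QuotientGroup.mk' R (FreeGroup.of e.2)) : ℤ) : ZMod p) =
        -((θ e.1 : ℤ) : ZMod p) + 0 +
          - -((θ (e.1 * QuotientGroup.mk' R (FreeGroup.of e.2)) : ℤ) : ZMod p)
      ring
    rw [map_one] at h1
    intro h2
    have h3 : f (QuotientGroup.mk' _ (mag R g).left) =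
        Multiplicative.ofAdd (-((θ 1 : ℤ) : ZMod p)) * 1 *
          (Multiplicative.ofAdd (-((θ (1 * QuotientGroup.mk' R g) : ℤ) : ZMod p)))⁻¹ := h1
    rw [h3] at h2
    have h4 := congrArg Multiplicative.toAdd h2
    have h5 : -((θ 1 : ℤ) : ZMod p) + 0 + - -((θ (1 * QuotientGroup.mk' R g) : ℤ) : ZMod p) = 0 := h4
    have h6 : θ (1 * QuotientGroup.mk' R g) = θ 1 + 1 := by
      rw [one_mul, ← hq]
      have h7 : θ (q * 1) = θ 1 + 1 := hθ 1
      rwa [mul_one] at h7
    rw [h6, Int.cast_add, Int.cast_one] at h5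
    have h8 : (1 : ZMod p) = 0 := by linear_combination h5
    exact one_ne_zero h8

end

end Pool.Agent.Run7.h78.NP
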