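import Mathlib

/-!
# A bound for the roots in a semidirect product

Owner helper78.
-/

set_option autoImplicit false

namespace Pool.Agent.Run7.h78.NP

/-- a finitely supported function that is invariant under a map all of whose orbits have at least `M`
points -/
theorem card_of_invariant {O A : Type} [AddCommGroup A] (κ : O → O) (hinj : Function.Injective κ)
    (M : ℕ) (hfree : ∀ (o : O) (i j : ℕ), i < M → j < M → κ^[i] o = κ^[j] o → i = j)
    (σ : O →₀ A) (hσ : Finsupp.mapDomain κ σ = σ) (hne : σ ≠ 0) : M ≤ σ.support.card := by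
  classical
  obtain ⟨o, ho⟩ := Finsupp.ne_iff.1 hne
  rw [Finsupp.coe_zero, Pi.zero_apply] at ho
  have h1 : ∀ i : ℕ, σ (κ^[i] o) = σ o := by
    intro i
    induction i with
    | zero => rfl
    | succ i ih =>
      rw [Function.iterate_succ_apply', ← ih]
      conv_lhs => rw [← hσ]
      exact Finsupp.mapDomain_apply hinj _ _
  have h2 : (Finset.range M).image (fun i => κ^[i] o) ⊆ σ.support := by
    intro x hx
    obtain ⟨i, _, rfl⟩ := Finset.mem_image.1 hx
    rw [Finsupp.mem_support_iff, h1 i]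
    exact ho
  calc M = (Finset.range M).card := (Finset.card_range M).symm
    _ = ((Finset.range M).image (fun i => κ^[i] o)).card := by
        rw [Finset.card_image_of_injOn]
        intro i hi j hj hij
        exact hfree o i j (Finset.mem_range.1 hi) (Finset.mem_range.1 hj) hij
    _ ≤ _ := Finset.card_le_card h2

/-- the orbits of the powers of a permutation -/
def orbS {B : Type} (π : Equiv.Perm B) : Setoid B where
  r b b' := ∃ n : ℤ, (π ^ n) b = b'
  iseqv :=
    { refl := fun b => ⟨0, by simp⟩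
      symm := by
        rintro b _ ⟨n, rfl⟩
        exact ⟨-n, by rw [← Equiv.Perm.mul_apply, ← zpow_add, neg_add_cancel, zpow_zero]; rfl⟩
      trans := by
        rintro b _ _ ⟨n, rfl⟩ ⟨m, rfl⟩
        exact ⟨m + n, by rw [zpow_add, Equiv.Perm.mul_apply]⟩ }

/-- **Roots.** -/
theorem root_bound {B A : Type} [CommRing A] (π π1 : Equiv.Perm B) (M : ℕ)
    (hq : π1 ^ M = π) (hfree : ∀ n : ℤ, n ≠ 0 → ∀ b : B, (π ^ n) b ≠ b) (v v1 : B →₀ A)
    (hv : v = ∑ j ∈ Finset.range M, Finsupp.mapDomain (fun b => (π1 ^ j) b) v1) (c : B → A)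
    (hc : ∀ b, c (π b) = c b) (hne : (v.sum fun b a => a * c b) ≠ 0) : M ≤ v.support.card := by
  classical
  rcases Nat.eq_zero_or_pos M with hM | hM
  · rw [hM]; exact Nat.zero_le _
  obtain ⟨mk, hmk⟩ : ∃ mk : B → Quotient (orbS π), mk = Quotient.mk (orbS π) := ⟨_, rfl⟩
  have hcz : ∀ (n : ℤ) (b : B), c ((π ^ n) b) = c b := by
    intro n
    induction n using Int.induction_on with
    | zero => intro b; simp
    | succ n ih =>
      intro b
      rw [add_comm, zpow_add, zpow_one, Equiv.Perm.mul_apply, hc, ih]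
    | pred n ih =>
      intro b
      have h1 := hc ((π ^ (-(n : ℤ) - 1)) b)
      rw [← h1, ← Equiv.Perm.mul_apply, ← zpow_one_add]
      have : (1 + (-(n : ℤ) - 1)) = -(n : ℤ) := by ring
      rw [this, ih]
  have hcomm : ∀ (n : ℤ) (b : B), π1 ((π ^ n) b) = (π ^ n) (π1 b) := by
    intro n b
    rw [← Equiv.Perm.mul_apply, ← Equiv.Perm.mul_apply, ← hq]
    congr 1
    have h1 : Commute π1 (π1 ^ M) := (Commute.refl π1).pow_right M
    exact (h1.zpow_right n).eq
  obtain ⟨κ, hκ⟩ : ∃ κ : Quotient (orbS π) → Quotient (orbS π), ∀ b, κ (mk b) = mk (π1 b) := by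
    refine ⟨Quotient.map π1 ?_, fun b => by rw [hmk]; rfl⟩
    rintro b _ ⟨n, rfl⟩
    exact ⟨n, (hcomm n b).symm⟩
  have hκi : ∀ (i : ℕ) (b : B), κ^[i] (mk b) = mk ((π1 ^ i) b) := by
    intro i
    induction i with
    | zero => intro b; rfl
    | succ i ih =>
      intro b
      rw [Function.iterate_succ_apply', ih, hκ, ← Equiv.Perm.mul_apply, ← pow_succ']
  have hmks : Function.Surjective mk := by rw [hmk]; exact Quotient.mk_surjective
  have hmke : ∀ b b', mk b = mk b' ↔ ∃ n : ℤ, (π ^ n) b = b' := by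
    intro b b'
    rw [hmk]
    exact Quotient.eq (r := orbS π)
  have hκM : ∀ o, κ^[M] o = o := by
    intro o
    obtain ⟨b, rfl⟩ := hmks o
    rw [hκi, hq]
    exact ((hmke _ _).2 ⟨1, by rw [zpow_one]⟩).symm
  have hinj : Function.Injective κ := by
    intro a b hab
    rw [← hκM a, ← hκM b]
    obtain ⟨M', rfl⟩ := Nat.exists_eq_succ_of_ne_zero (Nat.pos_iff_ne_zero.1 hM)
    rw [Function.iterate_succ_apply, Function.iterate_succ_apply, hab]
  have hfr1 : ∀ n : ℤ, n ≠ 0 → ∀ b : B, (π1 ^ n) b ≠ b := by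
    intro n hn b hb
    apply hfree n hn b
    rw [← hq, ← zpow_natCast, ← zpow_mul, mul_comm, zpow_mul, zpow_natCast]
    exact Equiv.Perm.pow_apply_eq_self_of_apply_eq_self hb M
  have hfreeκ : ∀ (o : Quotient (orbS π)) (i j : ℕ), i < M → j < M → κ^[i] o = κ^[j] o → i = j := by
    intro o i j hi hj hij
    obtain ⟨b, rfl⟩ := hmks o
    rw [hκi, hκi, hmke] at hij
    obtain ⟨n, hn⟩ := hij
    have h1 : (π1 ^ ((M : ℤ) * n + i - j)) b = b := by
      have h2 : (π1 ^ (-(j : ℤ))) ((π ^ n) ((π1 ^ i) b)) = b := by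
        rw [hn, ← zpow_natCast, ← Equiv.Perm.mul_apply, ← zpow_add, neg_add_cancel, zpow_zero]
        rfl
      rw [← hq, ← zpow_natCast, ← zpow_natCast, ← zpow_mul, ← Equiv.Perm.mul_apply,
        ← Equiv.Perm.mul_apply, ← zpow_add, ← zpow_add] at h2
      have h3 : (M : ℤ) * n + i - j = -(j : ℤ) + M * n + i := by ring
      rw [h3]
      exact h2
    have h4 : (M : ℤ) * n + i - j = 0 := by
      by_contra h5
      exact hfr1 _ h5 b h1
    have h5 : n = 0 := by
      by_contra h6
      rcases lt_or_gt_of_ne h6 with h7 | h7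
      · have h8 : (M : ℤ) * n ≤ -M := by nlinarith
        omega
      · have h8 : (M : ℤ) ≤ M * n := by nlinarith
        omega
    rw [h5] at h4
    omega
  obtain ⟨F, hF⟩ : ∃ F : ℕ → (Quotient (orbS π) →₀ A), ∀ j, F j =
      Finsupp.mapDomain (fun b => mk ((π1 ^ j) b)) v1 := ⟨_, fun _ => rfl⟩
  have hσ : Finsupp.mapDomain mk v = ∑ j ∈ Finset.range M, F j := by
    rw [hv, Finsupp.mapDomain_finsetSum]
    refine Finset.sum_congr rfl fun j _ => ?_
    rw [hF, ← Finsupp.mapDomain_comp]
    rfl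
  have hFs : ∀ j, Finsupp.mapDomain κ (F j) = F (j + 1) := by
    intro j
    rw [hF, hF, ← Finsupp.mapDomain_comp]
    congr 1
    funext b
    rw [Function.comp_apply, hκ, ← Equiv.Perm.mul_apply, ← pow_succ']
  have hFM : F M = F 0 := by
    rw [hF, hF]
    congr 1
    funext b
    rw [pow_zero, Equiv.Perm.one_apply, ← hκi, hκM]
  have hinv : Finsupp.mapDomain κ (Finsupp.mapDomain mk v) = Finsupp.mapDomain mk v := by
    rw [hσ, Finsupp.mapDomain_finsetSum, Finset.sum_congr rfl fun j _ => hFs j]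
    have h1 := Finset.sum_range_succ F M
    rw [Finset.sum_range_succ', hFM] at h1
    exact add_right_cancel h1
  have hne' : Finsupp.mapDomain mk v ≠ 0 := by
    intro h0
    apply hne
    obtain ⟨c', hc'⟩ : ∃ c' : Quotient (orbS π) → A, ∀ b, c' (mk b) = c b := by
      refine ⟨Quotient.lift c ?_, fun b => by rw [hmk]; rfl⟩
      rintro b _ ⟨n, rfl⟩
      exact (hcz n b).symm
    have h1 : (Finsupp.mapDomain mk v).sum (fun o a => a * c' o) = v.sum fun b a => a * c b := by
      rw [Finsupp.sum_mapDomain_index (fun o => zero_mul _) fun o a a' => add_mul _ _ _]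
      refine Finsupp.sum_congr fun b _ => ?_
      rw [hc']
    rw [← h1, h0, Finsupp.sum_zero_index]
  calc M ≤ (Finsupp.mapDomain mk v).support.card :=
        card_of_invariant κ hinj M hfreeκ _ hinv hne'
    _ ≤ (v.support.image mk).card := Finset.card_le_card Finsupp.mapDomain_support
    _ ≤ _ := Finset.card_image_le

/-- equivariant height for a permutation without periodic points -/
theorem exists_height {Y : Type} (π : Equiv.Perm Y) (hfree : ∀ n : ℤ, n ≠ 0 → ∀ y, (π ^ n) y ≠ y) :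
    ∃ θ : Y → ℤ, ∀ y, θ (π y) = θ y + 1 := by
  classical
  have h1 : ∀ y, ∃ n : ℤ, (π ^ n) (Quotient.out (Quotient.mk (orbS π) y)) = y := by
    intro y
    exact @Quotient.mk_out Y (orbS π) y
  choose θ hθ using h1
  refine ⟨θ, fun y => ?_⟩
  have h3 : Quotient.mk (orbS π) (π y) = Quotient.mk (orbS π) y :=
    (Quotient.sound (s := orbS π) (⟨1, by rw [zpow_one]⟩ : ∃ n : ℤ, (π ^ n) y = π y)).symm
  have h4 := hθ (π y)
  rw [h3] at h4
  have h5 := hθ y
  generalize Quotient.out (Quotient.mk (orbS π) y) = x at h4 h5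
  by_contra h6
  refine hfree (θ (π y) - (θ y + 1)) (sub_ne_zero.2 h6) ((π ^ (θ y + 1)) x) ?_
  rw [← Equiv.Perm.mul_apply, ← zpow_add, sub_add_cancel, h4, add_comm, zpow_add, zpow_one,
    Equiv.Perm.mul_apply, h5]

end Pool.Agent.Run7.h78.NP
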