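import Pool.Agent.Run7.h78.NP.Abs

/-!
# Verbal quotients of groups acting on trees: conjugacy to proper powers

Owner helper78.
-/

set_option autoImplicit false

namespace Pool.Agent.Run7.h78.NP

open Pool.Agent.Y75.BF (InfOrd NoPow)
open Pool.Agent.Run7.h78.VB Pool.Agent.N24.TR SimpleGraph

variable (W : Set (FreeGroup ℕ)) {G V : Type} [Group G] [MulAction G V] {T : SimpleGraph V}

/-- **The embedding.** -/
theorem tree_emb (hT : T.IsTree)
    (hact : ∀ (g : G) (u v : V), T.Adj u v → T.Adj (g • u) (g • v))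
    (R : Subgroup G) [R.Normal]
    (hfree : ∀ r ∈ R, ∀ v : V, r • v = v → r = 1)
    (hinv : ∀ r ∈ R, ∀ u v : V, T.Adj u v → r • u = v → r • v ≠ u) (o : V) :
    ∃ Θ : G ⧸ (verbal W R).map R.subtype →*
        RF W (XX R V) ⋊[(rfPerm W (XX R V)).comp (qhom R V)] (G ⧸ R),
      Function.Injective Θ ∧ (∀ g : G, (Θ (QuotientGroup.mk' _ g)).right = QuotientGroup.mk' R g) ∧
      ∀ (g : G) (p : T.Walk o (g • o)), (Θ (QuotientGroup.mk' _ g)).left =
        wp (fun u v => QuotientGroup.mk' (verbal W (FreeGroup (XX R V))) (sy (kk R) u v)) p := by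
  obtain ⟨e, he⟩ : ∃ e : V → V → RF W (XX R V), e = fun u v => QuotientGroup.mk' _ (sy (kk R) u v) :=
    ⟨_, rfl⟩
  have he1 : ∀ u v, T.Adj u v → e u v * e v u = 1 := by
    intro u v _
    rw [he]
    show QuotientGroup.mk' _ _ * QuotientGroup.mk' _ _ = 1
    rw [← map_mul, sy_mul, map_one]
  have he2 : ∀ (g : G) (u v : V), ((rfPerm W (XX R V)).comp (qhom R V)) (QuotientGroup.mk' R g)
      (e u v) = e (g • u) (g • v) := by
    intro g u v
    rw [he]
    show QuotientGroup.mk' _ (FreeGroup.map _ (sy (kk R) u v)) = QuotientGroup.mk' _ _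
    unfold sy
    rw [map_mul, map_inv, FreeGroup.map.of, FreeGroup.map.of]
    rfl
  obtain ⟨Θ, hΘ⟩ : ∃ Θ : G →* RF W (XX R V) ⋊[(rfPerm W (XX R V)).comp (qhom R V)] (G ⧸ R),
      Θ = theta hT hact e he1 o (QuotientGroup.mk' R) _ he2 := ⟨_, rfl⟩
  have hΘr : ∀ g, (Θ g).right = QuotientGroup.mk' R g := fun g => by rw [hΘ]; rfl
  have hΘl : ∀ g, (Θ g).left = gam hT e o (g • o) := fun g => by rw [hΘ]; rfl
  -- the kernel contains the verbal subgroup
  have h1 : ∀ g ∈ (verbal W R).map R.subtype, Θ g = 1 := by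
    rintro _ ⟨r, hr, rfl⟩
    have hr1 : ∀ r : R, (Θ r).right = 1 := fun r => by
      rw [hΘr]
      exact (QuotientGroup.eq_one_iff _).2 r.2
    obtain ⟨β, hβ⟩ : ∃ β : R →* RF W (XX R V), ∀ r, β r = (Θ r).left := by
      refine ⟨MonoidHom.mk' (fun r => (Θ r).left) fun a b => ?_, fun _ => rfl⟩
      show (Θ ((a : G) * b)).left = _
      rw [map_mul, SemidirectProduct.mul_left, hr1, map_one]
      rfl
    have h2 := verbal_map W β hr
    rw [verbal_rf, Subgroup.mem_bot, hβ] at h2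
    exact SemidirectProduct.ext h2 (hr1 r)
  refine ⟨QuotientGroup.lift _ Θ h1, ?_, fun g => hΘr g, fun g p => ?_⟩
  swap
  · show (Θ g).left = _
    rw [hΘl, gam_eq hT e he1 p, he]
  rw [injective_iff_map_eq_one]
  intro g hg
  obtain ⟨g, rfl⟩ := QuotientGroup.mk'_surjective _ g
  have h2 : Θ g = 1 := hg
  rw [QuotientGroup.mk'_apply, QuotientGroup.eq_one_iff]
  have hgR : g ∈ R := by
    have h3 := hΘr g
    rw [h2] at h3
    exact (QuotientGroup.eq_one_iff g).1 h3.symm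
  obtain ⟨s, ρ, hs, hρ⟩ := exists_ret (T := T) R hfree hinv
  obtain ⟨p⟩ := hT.connected.preconnected o (g • o)
  have h4 : wp (sy (kk R)) p ∈ verbal W (FreeGroup (XX R V)) := by
    have h5 := hΘl g
    rw [h2, gam_eq hT e he1 p] at h5
    have h6 := wp_hom (T := T) (QuotientGroup.mk' (verbal W (FreeGroup (XX R V)))) (sy (kk R)) e
      (fun u v _ => by rw [he]) p
    rw [← h5] at h6
    exact (QuotientGroup.eq_one_iff _).1 h6
  have h7 := verbal_map W ρ h4
  rw [wp_hom (T := T) ρ (sy (kk R)) (fun u v => (s u)⁻¹ * s v) hρ p, wp_cob,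
    hs ⟨g, hgR⟩ o] at h7
  refine ⟨⟨g, hgR⟩, ?_, rfl⟩
  have h8 := (verbal_normal W R).conj_mem _ h7 (s o)
  have h9 : s o * ((s o)⁻¹ * (⟨g, hgR⟩ * s o)) * (s o)⁻¹ = (⟨g, hgR⟩ : R) := by group
  rw [h9] at h8
  exact h8

/-- **Trees.** -/
theorem np_tree (hW : ∀ n : ℕ, NP (RF W (Fin n))) (P : Type) [Group P] [Nontrivial P]
    (hP : verbal W P = ⊥) (hT : T.IsTree)
    (hact : ∀ (g : G) (u v : V), T.Adj u v → T.Adj (g • u) (g • v))
    (R : Subgroup G) [R.Normal]
    (hfree : ∀ r ∈ R, ∀ v : V, r • v = v → r = 1)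
    (hinv : ∀ r ∈ R, ∀ u v : V, T.Adj u v → r • u = v → r • v ≠ u)
    (hst : ∀ (v : V) (x : G), x • v = v → InfOrd (QuotientGroup.mk x : G ⧸ R) →
      NoPow (QuotientGroup.mk x : G ⧸ R)) :
    NP (G ⧸ (verbal W R).map R.subtype) := by
  classical
  obtain ⟨p, hpp, hp⟩ := exists_prime W P hP
  have := Fact.mk hpp
  obtain ⟨o⟩ := hT.connected.nonempty
  obtain ⟨Θ, hΘ, hΘr, hΘl⟩ := tree_emb W hT hact R hfree hinv o
  refine np_abs W hW p hp (qhom R V) Θ hΘ fun g hg => ?_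
  obtain ⟨g, rfl⟩ := QuotientGroup.mk'_surjective _ g
  rw [hΘr] at hg ⊢
  by_cases hell : ∃ (j : ℕ) (v : V), 0 < j ∧ ∃ r ∈ R, (r * g ^ j) • v = v
  · -- elliptic modulo the normal subgroup
    left
    obtain ⟨j, v, hj, r, hr, h1⟩ := hell
    refine NoPow.of_pow j ?_
    have h2 : (QuotientGroup.mk' R g) ^ j = QuotientGroup.mk (r * g ^ j) := by
      rw [← QuotientGroup.mk'_apply R (r * g ^ j), map_mul, map_pow]
      have h3 : QuotientGroup.mk' R r = 1 := (QuotientGroup.eq_one_iff r).2 hr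
      rw [h3, one_mul]
    rw [h2]
    refine hst v _ h1 ?_
    rw [← h2]
    exact InfOrd.pow hg hj
  right
  push Not at hell
  -- the vertices modulo the normal subgroup
  obtain ⟨π, hπ⟩ : ∃ π : Equiv.Perm V, ∀ v, π v = g • v := ⟨MulAction.toPerm g, fun _ => rfl⟩
  have hπz : ∀ (n : ℤ) (v : V), (π ^ n) v = g ^ n • v := by
    intro n v
    have h1 : π = MulAction.toPermHom G V g := Equiv.ext hπ
    rw [h1, ← map_zpow]
    rfl
  have hno : ∀ n : ℤ, n ≠ 0 → ∀ (v : V), ∀ r ∈ R, (r * g ^ n) • v ≠ v := by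
    intro n hn v r hr h1
    rcases Int.natAbs_eq n with h2 | h2
    · rw [h2, zpow_natCast] at h1
      exact hell n.natAbs v (Int.natAbs_pos.2 hn) r hr h1
    · rw [h2, zpow_neg, zpow_natCast] at h1
      refine hell n.natAbs v (Int.natAbs_pos.2 hn) (g ^ n.natAbs * r⁻¹ * (g ^ n.natAbs)⁻¹)
        (Subgroup.Normal.conj_mem inferInstance _ (R.inv_mem hr) _) ?_
      rw [inv_mul_cancel_right]
      conv_lhs => rw [← h1]
      rw [← mul_smul]
      have h3 : g ^ n.natAbs * r⁻¹ * (r * (g ^ n.natAbs)⁻¹) = 1 := by group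
      rw [h3, one_smul]
  have hfr : ∀ n : ℤ, n ≠ 0 → ∀ b, ((qhom R V (QuotientGroup.mk' R g)) ^ n) b ≠ b := by
    intro n hn b hb
    rw [← map_zpow, ← map_zpow] at hb
    induction b using Quotient.inductionOn with
    | h x =>
      have h1 : kk R (g ^ n • x.1) (g ^ n • x.2) = kk R x.1 x.2 := hb
      obtain ⟨r, hr, h2, _⟩ := kk_eq R h1
      refine hno n hn x.1 r hr ?_ <;> rw [mul_smul]
      exact h2
  refine ⟨hfr, ?_⟩
  -- the height
  obtain ⟨θ, hθ, hθR⟩ : ∃ θ : V → ℤ, (∀ v, θ (g • v) = θ v + 1) ∧ ∀ r ∈ R, ∀ v, θ (r • v) = θ v := by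
    obtain ⟨Y, mk, hmks, hmk⟩ : ∃ (Y : Type) (mk : V → Y), Function.Surjective mk ∧
        ∀ u v, mk u = mk v ↔ ∃ r ∈ R, r • u = v := by
      refine ⟨Quotient (MulAction.orbitRel R V), Quotient.mk _, Quotient.mk_surjective, fun u v => ?_⟩
      rw [Quotient.eq (r := MulAction.orbitRel R V)]
      constructor
      · rintro ⟨r, hr⟩
        refine ⟨(r : G)⁻¹, R.inv_mem r.2, ?_⟩
        rw [inv_smul_eq_iff]
        exact hr.symm
      · rintro ⟨r, hr, h1⟩
        refine ⟨⟨r⁻¹, R.inv_mem hr⟩, ?_⟩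
        show r⁻¹ • v = u
        rw [inv_smul_eq_iff]
        exact h1.symm
    obtain ⟨σ, hσ⟩ : ∃ σ : Equiv.Perm Y, ∀ v, σ (mk v) = mk (g • v) := by
      have hmap : ∀ a : G, ∃ s : Y → Y, ∀ v, s (mk v) = mk (a • v) := by
        intro a
        choose sec hsec using hmks
        refine ⟨fun y => mk (a • sec y), fun v => ?_⟩
        obtain ⟨r, hr, h1⟩ := (hmk _ _).1 (hsec (mk v))
        refine (hmk _ _).2 ⟨a * r * a⁻¹, Subgroup.Normal.conj_mem inferInstance r hr a, ?_⟩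
        rw [← mul_smul, inv_mul_cancel_right, mul_smul, h1]
      obtain ⟨s, hs⟩ := hmap g
      obtain ⟨s', hs'⟩ := hmap g⁻¹
      refine ⟨⟨s, s', fun y => ?_, fun y => ?_⟩, hs⟩
      · obtain ⟨v, rfl⟩ := hmks y
        rw [hs, hs', inv_smul_smul]
      · obtain ⟨v, rfl⟩ := hmks y
        rw [hs', hs, smul_inv_smul]
    have hσz : ∀ (n : ℤ) (v : V), (σ ^ n) (mk v) = mk (g ^ n • v) := by
      intro n
      induction n using Int.induction_on with
      | zero => intro v; simp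
      | succ n ih =>
        intro v
        rw [add_comm, zpow_add, zpow_one, Equiv.Perm.mul_apply, ih, hσ, ← mul_smul, ← zpow_one_add,
          add_comm]
      | pred n ih =>
        intro v
        have h1 : σ ((σ ^ (-(n : ℤ) - 1)) (mk v)) = σ (mk (g ^ (-(n : ℤ) - 1) • v)) := by
          rw [hσ, ← Equiv.Perm.mul_apply, ← zpow_one_add, ← mul_smul, ← zpow_one_add]
          have h2 : (1 + (-(n : ℤ) - 1)) = -(n : ℤ) := by ring
          rw [h2, ih]
        exact σ.injective h1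
    obtain ⟨θ, hθ⟩ := exists_height σ fun n hn y hy => by
      obtain ⟨v, rfl⟩ := hmks y
      rw [hσz, hmk] at hy
      obtain ⟨r, hr, h1⟩ := hy
      refine hno n hn v r hr ?_
      rw [mul_smul]
      exact h1
    refine ⟨fun v => θ (mk v), fun v => ?_, fun r hr v => ?_⟩
    · show θ (mk (g • v)) = θ (mk v) + 1
      rw [← hσ, hθ]
    · show θ (mk (r • v)) = θ (mk v)
      rw [(hmk v (r • v)).2 ⟨r, hr, rfl⟩]
  -- the functional
  obtain ⟨c, hc⟩ : ∃ c : XX R V → ZMod p, ∀ u v, c (kk R u v) = ((max (θ v - θ u) 0 : ℤ) : ZMod p) := by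
    refine ⟨Quotient.lift (fun x : V × V => ((max (θ x.2 - θ x.1) 0 : ℤ) : ZMod p)) ?_,
      fun u v => rfl⟩
    rintro x _ ⟨r, hr, rfl⟩
    show ((max (θ x.2 - θ x.1) 0 : ℤ) : ZMod p) = ((max (θ (r • x.2) - θ (r • x.1)) 0 : ℤ) : ZMod p)
    rw [hθR r hr, hθR r hr]
  have hab : ∀ a b : Multiplicative (ZMod p), a * b = b * a := fun a b => mul_comm a b
  obtain ⟨f, hf⟩ := exists_lift W hp fun b => Multiplicative.ofAdd (c b)
  refine ⟨c, f, ?_, hf, ?_⟩
  · intro b
    induction b using Quotient.inductionOn with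
    | h x =>
      show c (kk R (g • x.1) (g • x.2)) = c (kk R x.1 x.2)
      rw [hc, hc, hθ, hθ, add_sub_add_right_eq_sub]
  · obtain ⟨w⟩ := hT.connected.preconnected o (g • o)
    rw [hΘl g w]
    have h1 := wp_hom (T := T) f (fun u v => QuotientGroup.mk' (verbal W (FreeGroup (XX R V)))
      (sy (kk R) u v)) (fun u v => (Multiplicative.ofAdd ((θ u : ℤ) : ZMod p))⁻¹ *
        Multiplicative.ofAdd ((θ v : ℤ) : ZMod p)) (fun u v _ => ?_) w
    swap
    · unfold sy
      rw [map_mul, map_inv, map_mul, map_inv]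
      have h2 : ∀ b, f (QuotientGroup.mk' (verbal W (FreeGroup (XX R V))) (FreeGroup.of b)) =
          Multiplicative.ofAdd (c b) := hf
      rw [h2, h2, hc, hc]
      refine Multiplicative.toAdd.injective ?_
      show ((max (θ v - θ u) 0 : ℤ) : ZMod p) + -((max (θ u - θ v) 0 : ℤ) : ZMod p) =
        -((θ u : ℤ) : ZMod p) + ((θ v : ℤ) : ZMod p)
      rw [← Int.cast_neg, ← Int.cast_neg, ← Int.cast_add, ← Int.cast_add]
      congr 1
      rcases le_total (θ u) (θ v) with h3 | h3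
      · rw [max_eq_left (by omega), max_eq_right (by omega)]
        ring
      · rw [max_eq_right (by omega), max_eq_left (by omega)]
        ring
    rw [h1, wp_cob, hθ]
    intro h2
    have h3 := congrArg Multiplicative.toAdd h2
    have h4 : -((θ o : ℤ) : ZMod p) + ((θ o + 1 : ℤ) : ZMod p) = 0 := h3
    rw [Int.cast_add, neg_add_cancel_left, Int.cast_one] at h4
    exact one_ne_zero h4

end Pool.Agent.Run7.h78.NP
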