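import Pool.Agent.Run7.h78.NP.Tree
import Pool.Agent.Run7.h78.NP.Free
import Pool.Agent.V11187.BT.Thm

/-!
# Sets of words, central extensions

Owner helper78.
-/

set_option autoImplicit false

namespace Pool.Agent.Run7.h78.NP

open Pool.Agent.Y75.BF (InfOrd NoPow)
open Pool.Agent.Run7.h78.VB

universe u

/-- The set of words `W` is *admissible*: some nontrivial group satisfies the laws `w = 1` for all
`w` in `W`, and in the relatively free groups of finite rank no element of infinite order is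
conjugate to a proper power. -/
def Adm (W : Set (FreeGroup ℕ)) : Prop :=
  (∃ (P : Type) (_ : Group P), Nontrivial P ∧ verbal W P = ⊥) ∧ ∀ n : ℕ, NP (RF W (Fin n))

/-- the words of the lower central series -/
def lcsW (c : ℕ) : Set (FreeGroup ℕ) := {w | w ∈ (⊤ : Subgroup (FreeGroup ℕ)).lowerCentralSeries c}

/-- the power word -/
def powW (n : ℕ) : Set (FreeGroup ℕ) := {FreeGroup.of 0 ^ n}

theorem map_lcs {G H : Type} [Group G] [Group H] (f : G →* H) {c : ℕ} {x : G}
    (hx : x ∈ (⊤ : Subgroup G).lowerCentralSeries c) :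
    f x ∈ (⊤ : Subgroup H).lowerCentralSeries c := by
  have h1 : f x ∈ ((⊤ : Subgroup G).lowerCentralSeries c).map f := ⟨x, hx, rfl⟩
  rw [Subgroup.map_lowerCentralSeries] at h1
  exact Subgroup.lowerCentralSeries_mono c le_top h1

theorem verbal_lcs (c : ℕ) (G : Type) [Group G] :
    verbal (lcsW c) G = (⊤ : Subgroup G).lowerCentralSeries c := by
  refine le_antisymm ?_ ?_
  · refine (Subgroup.closure_le _).2 ?_
    rintro _ ⟨w, hw, f, rfl⟩
    exact map_lcs f hw
  · intro x hx
    have hsurj : Function.Surjective (FreeGroup.lift (id : G → G)) := fun g =>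
      ⟨FreeGroup.of g, FreeGroup.lift_apply_of⟩
    have h1 : x ∈ ((⊤ : Subgroup (FreeGroup G)).lowerCentralSeries c).map (FreeGroup.lift id) := by
      rw [Subgroup.map_lowerCentralSeries, Subgroup.map_top_of_surjective _ hsurj]
      exact hx
    obtain ⟨w, hw, h2⟩ := h1
    obtain ⟨S, hS, hagree⟩ := agree_free w
    obtain ⟨e, he⟩ := Set.countable_iff_exists_injOn.1 hS.countable
    obtain ⟨r, hr⟩ : ∃ r : ℕ → G, ∀ s ∈ S, r (e s) = s :=
      ⟨Function.invFunOn e S, fun s hs => he.leftInvOn_invFunOn hs⟩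
    refine Subgroup.subset_closure ⟨FreeGroup.map e w, map_lcs _ hw, FreeGroup.lift r, ?_⟩
    rw [← h2]
    refine hagree G (FreeGroup.lift id) ((FreeGroup.lift r).comp (FreeGroup.map e)) fun s hs => ?_
    rw [MonoidHom.comp_apply, FreeGroup.map.of, FreeGroup.lift_apply_of, FreeGroup.lift_apply_of, hr s hs]
    rfl

theorem verbal_pow (n : ℕ) (G : Type) [Group G] :
    verbal (powW n) G = Subgroup.closure {g | ∃ x : G, g = x ^ n} := by
  have h : {g : G | ∃ w ∈ powW n, ∃ f : FreeGroup ℕ →* G, g = f w} = {g | ∃ x : G, g = x ^ n} := by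
    ext g
    constructor
    · rintro ⟨w, hw, f, rfl⟩
      have hw1 : w = FreeGroup.of 0 ^ n := hw
      exact ⟨f (FreeGroup.of 0), by rw [hw1, map_pow]⟩
    · rintro ⟨x, rfl⟩
      refine ⟨FreeGroup.of 0 ^ n, Set.mem_singleton _, FreeGroup.lift fun _ => x, ?_⟩
      rw [map_pow, FreeGroup.lift_apply_of]
  unfold verbal
  rw [h]

theorem adm_lcs (c : ℕ) (hc : 1 ≤ c) : Adm (lcsW c) := by
  refine ⟨⟨Multiplicative (ZMod 2), inferInstance, inferInstance, ?_⟩, fun n => ?_⟩
  · rw [verbal_lcs, eq_bot_iff]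
    refine (Subgroup.lowerCentralSeries_antitone _ hc).trans ?_
    rw [Subgroup.top_lowerCentralSeries_one, le_bot_iff, commutator_eq_bot_iff_center_eq_top]
    exact CommGroup.center_eq_top
  · have : Group.IsNilpotent (RF (lcsW c) (Fin n)) := by
      rw [Subgroup.nilpotent_iff_lowerCentralSeries]
      refine ⟨c, ?_⟩
      rw [← verbal_lcs]
      exact verbal_rf _ _
    exact np_of_nilpotent _

/-- all relatively free groups of finite rank are torsion groups -/
theorem adm_of_torsion (W : Set (FreeGroup ℕ)) (P : Type) [Group P] [Nontrivial P]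
    (hP : verbal W P = ⊥) (h : ∀ (n : ℕ) (x : RF W (Fin n)), ∃ k, 0 < k ∧ x ^ k = 1) : Adm W := by
  refine ⟨⟨P, inferInstance, inferInstance, hP⟩, fun n => np_of_torsion fun g hg => ?_⟩
  obtain ⟨k, hk, h1⟩ := h n g
  exact hg k hk h1

theorem adm_pow (n : ℕ) (hn : 2 ≤ n) : Adm (powW n) := by
  have : Fact (1 < n) := ⟨by omega⟩
  refine adm_of_torsion (powW n) (Multiplicative (ZMod n)) ?_ fun k x => ⟨n, by omega, ?_⟩
  · rw [verbal_pow, eq_bot_iff]
    refine (Subgroup.closure_le _).2 ?_
    rintro _ ⟨x, rfl⟩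
    rw [SetLike.mem_coe, Subgroup.mem_bot]
    refine Multiplicative.toAdd.injective ?_
    rw [toAdd_pow, nsmul_eq_mul, ZMod.natCast_self, zero_mul]
    rfl
  · have h1 := (verbal_pow n (RF (powW n) (Fin k))).symm.trans (verbal_rf (powW n) (Fin k))
    have h2 : x ^ n ∈ Subgroup.closure {g | ∃ x : RF (powW n) (Fin k), g = x ^ n} :=
      Subgroup.subset_closure ⟨x, rfl⟩
    rwa [h1, Subgroup.mem_bot] at h2

/-- The iterated commutator subgroups `[N, G, ..., G]`, `k` times. -/
def itc {G : Type u} [Group G] (N : Subgroup G) : ℕ → Subgroup G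
  | 0 => N
  | k + 1 => ⁅itc N k, ⊤⁆

instance itc_normal {G : Type u} [Group G] (N : Subgroup G) [hN : N.Normal] (k : ℕ) :
    (itc N k).Normal := by
  induction k with
  | zero => exact hN
  | succ k ih =>
    show (⁅itc N k, ⊤⁆ : Subgroup G).Normal
    infer_instance

theorem np_comm {G : Type u} [Group G] (N : Subgroup G) [N.Normal] (h : NP (G ⧸ N)) :
    NP (G ⧸ ⁅N, (⊤ : Subgroup G)⁆) := by
  have hle : ⁅N, (⊤ : Subgroup G)⁆ ≤ N := Subgroup.commutator_le_left _ _
  refine np_of_central (QuotientGroup.map _ N (MonoidHom.id G) fun x hx => hle hx) (fun z hz x => ?_) h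
  obtain ⟨z, rfl⟩ := QuotientGroup.mk'_surjective _ z
  obtain ⟨x, rfl⟩ := QuotientGroup.mk'_surjective _ x
  have h1 : z ∈ N := (QuotientGroup.eq_one_iff (N := N) z).1 hz
  rw [← commutatorElement_eq_one_iff_mul_comm, ← map_commutatorElement, QuotientGroup.mk'_apply,
    QuotientGroup.eq_one_iff, ← inv_mem_iff, commutatorElement_inv]
  exact Subgroup.commutator_mem_commutator h1 (Subgroup.mem_top x)

theorem np_itc {G : Type u} [Group G] (N : Subgroup G) [N.Normal] (h : NP (G ⧸ N)) (k : ℕ) :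
    NP (G ⧸ itc N k) := by
  induction k with
  | zero => exact h
  | succ k ih => exact np_comm (itc N k) ih

end Pool.Agent.Run7.h78.NP
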